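import Pool.Agent.Lib.MP_084b88_gt.SK.R1.Q

/-! # MP_084b88_gt: certificate R1, the expression -/

set_option autoImplicit false

namespace Pool.Agent.Lib.MP_084b88_gt.SK.R1

open Pool.Agent.Lib.MP_084b88_gt.SK

theorem hF : chU P Q [E] (Ex.add (smE 2 G) T) [⟨-1, false, F⟩] [] = true := by decide +kernel

end Pool.Agent.Lib.MP_084b88_gt.SK.R1
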